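import Pool.Agent.Helper98.DJ.Df

/-!
# Project DJ (MP_274814_nt): the inequality of Q1
-/

set_option autoImplicit false

namespace Pool.Agent.Helper98.DJ

open Set Pool.Agent.Helper24.LU Pool.Agent.Helper24.LRDefs

/-- DJ-3. Take `Option (Pidx q) -> C`, `none -> pi`; `AlgebraicIndependent.option_iff`...; the
ratios are algebraic over `F q` by `Rr_alg_of_mem`; bound as in `HasInd.trdeg_le`;
`card_Pidx`. -/
theorem LR_of (q : ℕ) (hq : 2 < q)
    (hind : AlgebraicIndependent ℚ (fun a : Pidx q => ((Rr q a : ℝ) : ℂ)))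
    (hpi : ¬ IsAlgebraic (Algebra.adjoin ℚ (range fun a : Pidx q => ((Rr q a : ℝ) : ℂ)))
      (Real.pi : ℂ)) : LR q := by
  unfold LR
  have h0 : AlgebraicIndependent ℚ
      (fun o : Option (Pidx q) => o.elim (Real.pi : ℂ) fun a : Pidx q => ((Rr q a : ℝ) : ℂ)) :=
    (hind.option_iff_transcendental _).2 hpi
  set y : Option (Pidx q) → ℂ :=
    fun o => o.elim (Real.pi : ℂ) fun a : Pidx q => ((Rr q a : ℝ) : ℂ) with hy
  have hpiF : (Real.pi : ℂ) ∈ F q :=
    IntermediateField.subset_adjoin ℚ _ (Or.inl rfl)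
  have hyF : ∀ o, IsAlgebraic (F q) (y o) := by
    rintro (_ | a)
    · exact Pool.Agent.Helper24.GammaTr.isAlg_of_mem _ hpiF
    · have ha := Finset.mem_filter.1 a.2
      have ha0 : 1 ≤ (a : ℕ) := by
        rcases Nat.eq_zero_or_pos (a : ℕ) with h | h
        · have h1 := ha.2.2
          rw [h, Nat.coprime_zero_left] at h1
          omega
        · exact h
      have haq := Finset.mem_range.1 ha.1
      exact Rr_alg_of_mem (F q) q a ha0 haq hpiF (IntermediateField.subset_adjoin ℚ _
        (Or.inr ⟨a, ha0, by omega, ha.2.2, rfl⟩))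
  set L := IntermediateField.adjoin ℚ (Set.range y) with hL
  have h1 : Algebra.trdeg ℚ L ≤ Algebra.trdeg ℚ (F q) := by
    apply Pool.Agent.Helper24.GammaFull.trdeg_le_of_alg2
    have hle : L ≤ (algebraicClosure (F q) ℂ).restrictScalars ℚ := by
      rw [hL, IntermediateField.adjoin_le_iff]
      rintro z ⟨o, rfl⟩
      change _ ∈ IntermediateField.restrictScalars ℚ _
      rw [IntermediateField.mem_restrictScalars, mem_algebraicClosure_iff]
      exact hyF o
    intro z hz
    have := hle hz
    rwa [IntermediateField.mem_restrictScalars, mem_algebraicClosure_iff] at this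
  refine le_trans ?_ h1
  have hyi : AlgebraicIndependent ℚ
      (fun o => (⟨y o, IntermediateField.subset_adjoin ℚ _ ⟨o, rfl⟩⟩ : L)) :=
    (AlgHom.algebraicIndependent_iff L.val L.val.injective).1 h0
  have h2 := hyi.lift_cardinalMk_le_trdeg
  have h3 : Cardinal.mk (Option (Pidx q)) = ((1 + Nat.totient q / 2 : ℕ) : Cardinal) := by
    rw [Cardinal.mk_fintype, Fintype.card_option, card_Pidx q hq, add_comm]
  rw [h3] at h2
  simpa using h2

end Pool.Agent.Helper98.DJ
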