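import Pool.Agent.Helper24.LU.Fs
import Pool.Agent.Helper24.LRDefs

/-!
# Project DJ (MP_274814_nt): definitions
-/

set_option autoImplicit false

namespace Pool.Agent.Helper98.DJ

open Set Pool.Agent.Helper24.LU Pool.Agent.Helper24.LRDefs

/-- `g` (numerators over `Q`) generates all ratios of level `Q` up to algebraic extension. -/
def Gen (Q n : ℕ) (g : Fin n → ℕ) : Prop :=
  (∀ i, 1 ≤ g i ∧ g i < Q) ∧
  ∀ K : IntermediateField ℚ ℂ, (∀ i, IsAlgebraic K ((Rr Q (g i) : ℝ) : ℂ)) →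
    ∀ a, 1 ≤ a → a < Q → IsAlgebraic K ((Rr Q a : ℝ) : ℂ)

/-- the inequality of Q1 -/
def LR (q : ℕ) : Prop := ((1 + Nat.totient q / 2 : ℕ) : Cardinal) ≤ Algebra.trdeg ℚ (F q)

def g35 : Fin 12 → ℕ := ![7, 14, 5, 10, 15, 4, 6, 8, 9, 13, 16, 17]
def g40 : Fin 8 → ℕ := ![8, 16, 5, 15, 7, 9, 13, 19]
def g45 : Fin 12 → ℕ := ![9, 18, 5, 10, 20, 1, 2, 4, 7, 8, 11, 14]

end Pool.Agent.Helper98.DJ
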