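import Mathlib

/-!
# Project DJ (MP_274814_nt): closures of disjoint parts
-/

set_option autoImplicit false

namespace Pool.Agent.Helper98.DJ

open Set
open scoped Nat

/-- DJ-1. Use `AlgebraicIndependent.matroid`, `Matroid.Indep.closure_inter_eq_inter_closure`
(see `Pool.Agent.Helper24.LU.indep_of_card` for the use of the matroid). -/
theorem inter_alg {I J : Type*} (x : I → ℂ) (y : J → ℂ)
    (h : AlgebraicIndependent ℚ (Sum.elim x y)) (z : ℂ)
    (hx : IsAlgebraic (Algebra.adjoin ℚ (range x)) z)
    (hy : IsAlgebraic (Algebra.adjoin ℚ (range y)) z) : IsAlgebraic ℚ z := by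
  classical
  have h1 : (AlgebraicIndependent.matroid ℚ ℂ).Indep (range x ∪ range y) := by
    have h2 := h.coe_range
    rw [Sum.elim_range] at h2
    exact AlgebraicIndependent.matroid_indep_iff.2 h2
  have h3 : range x ∩ range y = ∅ := by
    rw [← Set.disjoint_iff_inter_eq_empty, Set.disjoint_left]
    rintro _ ⟨i, rfl⟩ ⟨j, hj⟩
    have h4 : Sum.elim x y (Sum.inr j) = Sum.elim x y (Sum.inl i) := by simpa using hj
    exact absurd (h.injective h4) (by simp)
  have h5 : z ∈ (AlgebraicIndependent.matroid ℚ ℂ).closure (range x) ∩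
      (AlgebraicIndependent.matroid ℚ ℂ).closure (range y) := by
    rw [AlgebraicIndependent.matroid_closure_eq, AlgebraicIndependent.matroid_closure_eq]
    refine ⟨?_, ?_⟩
    · rw [SetLike.mem_coe, Subalgebra.mem_algebraicClosure]
      exact hx
    · rw [SetLike.mem_coe, Subalgebra.mem_algebraicClosure]
      exact hy
  rw [← h1.closure_inter_eq_inter_closure, h3, AlgebraicIndependent.matroid_closure_eq,
    SetLike.mem_coe, Subalgebra.mem_algebraicClosure] at h5
  have h6 : (Algebra.adjoin ℚ (∅ : Set ℂ)) = ⊥ := Algebra.adjoin_empty ℚ ℂ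
  rw [h6] at h5
  exact Subalgebra.isAlgebraic_of_isAlgebraic_bot h5

end Pool.Agent.Helper98.DJ
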