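import Pool.Agent.Helper98.DJ.Df
import Pool.Agent.Helper24.LU.Fi

/-!
# Project DJ (MP_274814_nt): generating sets of the right size are independent
-/

set_option autoImplicit false

namespace Pool.Agent.Helper98.DJ

open Set Pool.Agent.Helper24.LU Pool.Agent.Helper24.LRDefs

/-- DJ-2. `indep_of_card`, `alg_adjoin`. -/
theorem indep_of_gen (Q n : ℕ) (g : Fin n → ℕ) (hg : Gen Q n g) (h : HasInd Q n) :
    AlgebraicIndependent ℚ (fun i => ((Rr Q (g i) : ℝ) : ℂ)) := by
  obtain ⟨f, hf⟩ := h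
  refine indep_of_card _ (fun a : {a : ℕ // 1 ≤ a ∧ a < Q} => ((Rr Q a : ℝ) : ℂ)) ?_
    (fun k => f (Fin.cast (Fintype.card_fin n) k))
    ((real_iff.2 hf).comp _ (Fin.cast_injective (Fintype.card_fin n)))
  intro a
  apply alg_adjoin
  refine hg.2 _ (fun i => ?_) a a.2.1 a.2.2
  apply Pool.Agent.Helper24.GammaTr.isAlg_of_mem
  exact IntermediateField.subset_adjoin ℚ _ (Set.mem_range_self i)

end Pool.Agent.Helper98.DJ
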