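import Pool.Agent.Helper98.DJ.Df

/-!
# Project DJ (MP_274814_nt): the relations at a fixed level
-/

set_option autoImplicit false

namespace Pool.Agent.Helper98.DJ

open Set Pool.Agent.Helper24.LU Pool.Agent.Helper24.LRDefs
open Pool.Agent.Helper24.GammaDist Pool.Agent.Helper24.GammaTr

/-- The relations of an odd distribution at level `Q`. -/
structure RelF {M : Type*} [AddCommGroup M] (Q : ℕ) (r : ℕ → M) : Prop where
  zero : r 0 = 0
  half : ∀ a, 2 * a = Q → r a = 0
  neg : ∀ a, a ≤ Q → r (Q - a) = - r a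
  rel : ∀ p m a, Q = p * m → 0 < p → 0 < m →
    ∑ k ∈ Finset.range p, r (a + k * m) = r (p * a)

/-- The class of the ratio with numerator `a`. -/
noncomputable def rr (K : IntermediateField ℚ ℂ) (Q a : ℕ) : ℝ ⧸ CC K := H K ((a : ℚ) / Q)

theorem relF (K : IntermediateField ℚ ℂ) (Q : ℕ) (hQ : 0 < Q) : RelF Q (rr K Q) := by
  have hf := H_dist K
  have hq : (Q : ℚ) ≠ 0 := by exact_mod_cast hQ.ne'
  have hneg : ∀ a, a ≤ Q → rr K Q (Q - a) = - rr K Q a := by
    intro a ha
    unfold rr
    rw [← hf.odd, ← hf.per (-((a : ℚ) / Q))]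
    congr 1
    rw [Nat.cast_sub ha]
    field_simp
    ring
  refine ⟨?_, ?_, hneg, ?_⟩
  · have h := hf.odd 0
    rw [neg_zero] at h
    have h2 : rr K Q 0 = H K 0 := by unfold rr; simp
    rw [h2]
    apply two_tor
    nth_rewrite 1 [h]
    exact neg_add_cancel _
  · intro a ha
    apply two_tor
    have h := hneg a (by omega)
    have h2 : Q - a = a := by omega
    rw [h2] at h
    nth_rewrite 1 [h]
    exact neg_add_cancel _
  · intro p m a hpm hp hm
    have h := hf.mul p hp (((p * a : ℕ) : ℚ) / Q)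
    unfold rr
    rw [← h]
    refine Finset.sum_congr rfl fun k _ => ?_
    congr 1
    have hp' : (p : ℚ) ≠ 0 := by exact_mod_cast hp.ne'
    have hm' : (m : ℚ) ≠ 0 := by exact_mod_cast hm.ne'
    rw [hpm]
    push_cast
    field_simp

end Pool.Agent.Helper98.DJ
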