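import Pool.Agent.Helper98.DJ.Df
import Pool.Agent.Helper98.DJ.Rl

/-!
# Project DJ (MP_274814_nt): level 35
-/

set_option autoImplicit false

namespace Pool.Agent.Helper98.DJ

open Set Pool.Agent.Helper24.LU Pool.Agent.Helper24.LRDefs

/-- Level 35: linear algebra of the relations. -/
private theorem lin35 {M : Type*} [AddCommGroup M] [Module ℚ M] (r : ℕ → M)
    (hr : RelF 35 r)
    (h7 : r 7 = 0)
    (h14 : r 14 = 0)
    (h5 : r 5 = 0)
    (h10 : r 10 = 0)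
    (h15 : r 15 = 0)
    (h4 : r 4 = 0)
    (h6 : r 6 = 0)
    (h8 : r 8 = 0)
    (h9 : r 9 = 0)
    (h13 : r 13 = 0)
    (h16 : r 16 = 0)
    (h17 : r 17 = 0)
    : ∀ a, 1 ≤ a → a < 35 → r a = 0 := by
  have n34 : r 34 = - r 1 := hr.neg 1 (by norm_num)
  have n33 : r 33 = - r 2 := hr.neg 2 (by norm_num)
  have n32 : r 32 = - r 3 := hr.neg 3 (by norm_num)
  have n31 : r 31 = - r 4 := hr.neg 4 (by norm_num)
  have n30 : r 30 = - r 5 := hr.neg 5 (by norm_num)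
  have n29 : r 29 = - r 6 := hr.neg 6 (by norm_num)
  have n28 : r 28 = - r 7 := hr.neg 7 (by norm_num)
  have n27 : r 27 = - r 8 := hr.neg 8 (by norm_num)
  have n26 : r 26 = - r 9 := hr.neg 9 (by norm_num)
  have n25 : r 25 = - r 10 := hr.neg 10 (by norm_num)
  have n24 : r 24 = - r 11 := hr.neg 11 (by norm_num)
  have n23 : r 23 = - r 12 := hr.neg 12 (by norm_num)
  have n22 : r 22 = - r 13 := hr.neg 13 (by norm_num)
  have n21 : r 21 = - r 14 := hr.neg 14 (by norm_num)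
  have n20 : r 20 = - r 15 := hr.neg 15 (by norm_num)
  have n19 : r 19 = - r 16 := hr.neg 16 (by norm_num)
  have n18 : r 18 = - r 17 := hr.neg 17 (by norm_num)
  have z0 : r 0 = 0 := hr.zero
  have e0 : r 1 + r 8 + r 15 + r 22 + r 29 = r 5 := by
    have h := hr.rel 5 7 1 (by norm_num) (by norm_num) (by norm_num)
    simpa [Finset.sum_range_succ] using h
  rw [n22, n29] at e0
  have e1 : r 2 + r 9 + r 16 + r 23 + r 30 = r 10 := by
    have h := hr.rel 5 7 2 (by norm_num) (by norm_num) (by norm_num)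
    simpa [Finset.sum_range_succ] using h
  rw [n23, n30] at e1
  have e2 : r 3 + r 10 + r 17 + r 24 + r 31 = r 15 := by
    have h := hr.rel 5 7 3 (by norm_num) (by norm_num) (by norm_num)
    simpa [Finset.sum_range_succ] using h
  rw [n24, n31] at e2
  have e6 : r 1 + r 6 + r 11 + r 16 + r 21 + r 26 + r 31 = r 7 := by
    have h := hr.rel 7 5 1 (by norm_num) (by norm_num) (by norm_num)
    simpa [Finset.sum_range_succ] using h
  rw [n21, n26, n31] at e6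
  have e7 : r 2 + r 7 + r 12 + r 17 + r 22 + r 27 + r 32 = r 14 := by
    have h := hr.rel 7 5 2 (by norm_num) (by norm_num) (by norm_num)
    simpa [Finset.sum_range_succ] using h
  rw [n22, n27, n32] at e7
  have h1 : r 1 = 0 := by
    linear_combination (norm := module) (1 : ℚ) • e0 + (1 : ℚ) • h5 + (-1 : ℚ) • h15 + (1 : ℚ) • h6 + (-1 : ℚ) • h8 + (1 : ℚ) • h13
  have h2 : r 2 = 0 := by
    linear_combination (norm := module) (-1 / 2 : ℚ) • e0 + (1 / 2 : ℚ) • e1 + (1 / 2 : ℚ) • e2 + (1 / 2 : ℚ) • e6 + (1 / 2 : ℚ) • e7 + (1 : ℚ) • h14 + (1 : ℚ) • h15 + (1 : ℚ) • h4 + (-1 : ℚ) • h6 + (1 : ℚ) • h8 + (-1 : ℚ) • h16 + (-1 : ℚ) • h17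
  have h3 : r 3 = 0 := by
    linear_combination (norm := module) (-1 : ℚ) • e0 + (1 : ℚ) • e2 + (1 : ℚ) • e6 + (1 : ℚ) • h7 + (1 : ℚ) • h14 + (-1 : ℚ) • h5 + (-1 : ℚ) • h10 + (2 : ℚ) • h15 + (2 : ℚ) • h4 + (-2 : ℚ) • h6 + (1 : ℚ) • h8 + (1 : ℚ) • h9 + (-1 : ℚ) • h13 + (-1 : ℚ) • h16 + (-1 : ℚ) • h17
  have h11 : r 11 = 0 := by
    linear_combination (norm := module) (-1 : ℚ) • e0 + (1 : ℚ) • e6 + (1 : ℚ) • h7 + (1 : ℚ) • h14 + (-1 : ℚ) • h5 + (1 : ℚ) • h15 + (1 : ℚ) • h4 + (-2 : ℚ) • h6 + (1 : ℚ) • h8 + (1 : ℚ) • h9 + (-1 : ℚ) • h13 + (-1 : ℚ) • h16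
  have h12 : r 12 = 0 := by
    linear_combination (norm := module) (-1 / 2 : ℚ) • e0 + (-1 / 2 : ℚ) • e1 + (1 / 2 : ℚ) • e2 + (1 / 2 : ℚ) • e6 + (1 / 2 : ℚ) • e7 + (1 : ℚ) • h14 + (-1 : ℚ) • h5 + (-1 : ℚ) • h10 + (1 : ℚ) • h15 + (1 : ℚ) • h4 + (-1 : ℚ) • h6 + (1 : ℚ) • h8 + (1 : ℚ) • h9 + (-1 : ℚ) • h17
  intro a ha1 ha2
  interval_cases a
  · exact h1
  · exact h2
  · exact h3
  · exact h4
  · exact h5
  · exact h6
  · exact h7
  · exact h8
  · exact h9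
  · exact h10
  · exact h11
  · exact h12
  · exact h13
  · exact h14
  · exact h15
  · exact h16
  · exact h17
  · rw [n18, h17, neg_zero]
  · rw [n19, h16, neg_zero]
  · rw [n20, h15, neg_zero]
  · rw [n21, h14, neg_zero]
  · rw [n22, h13, neg_zero]
  · rw [n23, h12, neg_zero]
  · rw [n24, h11, neg_zero]
  · rw [n25, h10, neg_zero]
  · rw [n26, h9, neg_zero]
  · rw [n27, h8, neg_zero]
  · rw [n28, h7, neg_zero]
  · rw [n29, h6, neg_zero]
  · rw [n30, h5, neg_zero]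
  · rw [n31, h4, neg_zero]
  · rw [n32, h3, neg_zero]
  · rw [n33, h2, neg_zero]
  · rw [n34, h1, neg_zero]

theorem gen35 : Gen 35 12 g35 := by
  refine ⟨by decide, fun K hK => ?_⟩
  intro a h1 h2
  rw [← H_zero_iff K a 35 h1 h2]
  have h3 : ∀ b, 1 ≤ b → b < 35 → IsAlgebraic K ((Rr 35 b : ℝ) : ℂ) → rr K 35 b = 0 :=
    fun b hb1 hb2 hb => (H_zero_iff K b 35 hb1 hb2).2 hb
  exact lin35 (rr K 35) (relF K 35 (by norm_num)) (h3 7 (by norm_num) (by norm_num) (hK 0)) (h3 14 (by norm_num) (by norm_num) (hK 1)) (h3 5 (by norm_num) (by norm_num) (hK 2)) (h3 10 (by norm_num) (by norm_num) (hK 3)) (h3 15 (by norm_num) (by norm_num) (hK 4)) (h3 4 (by norm_num) (by norm_num) (hK 5)) (h3 6 (by norm_num) (by norm_num) (hK 6)) (h3 8 (by norm_num) (by norm_num) (hK 7)) (h3 9 (by norm_num) (by norm_num) (hK 8)) (h3 13 (by norm_num) (by norm_num) (hK 9)) (h3 16 (by norm_num) (by norm_num) (hK 10)) (h3 17 (by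 norm_num) (by norm_num) (hK 11)) a h1 h2

end Pool.Agent.Helper98.DJ
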