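import Pool.Agent.Helper98.DJ.Df
import Pool.Agent.Helper98.DJ.Rl

/-!
# Project DJ (MP_274814_nt): level 40
-/

set_option autoImplicit false

namespace Pool.Agent.Helper98.DJ

open Set Pool.Agent.Helper24.LU Pool.Agent.Helper24.LRDefs

/-- Level 40: linear algebra of the relations. -/
private theorem lin40 {M : Type*} [AddCommGroup M] [Module ℚ M] (r : ℕ → M)
    (hr : RelF 40 r)
    (h8 : r 8 = 0)
    (h16 : r 16 = 0)
    (h5 : r 5 = 0)
    (h15 : r 15 = 0)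
    (h7 : r 7 = 0)
    (h9 : r 9 = 0)
    (h13 : r 13 = 0)
    (h19 : r 19 = 0)
    : ∀ a, 1 ≤ a → a < 40 → r a = 0 := by
  have n39 : r 39 = - r 1 := hr.neg 1 (by norm_num)
  have n38 : r 38 = - r 2 := hr.neg 2 (by norm_num)
  have n37 : r 37 = - r 3 := hr.neg 3 (by norm_num)
  have n36 : r 36 = - r 4 := hr.neg 4 (by norm_num)
  have n35 : r 35 = - r 5 := hr.neg 5 (by norm_num)
  have n34 : r 34 = - r 6 := hr.neg 6 (by norm_num)
  have n33 : r 33 = - r 7 := hr.neg 7 (by norm_num)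
  have n32 : r 32 = - r 8 := hr.neg 8 (by norm_num)
  have n31 : r 31 = - r 9 := hr.neg 9 (by norm_num)
  have n30 : r 30 = - r 10 := hr.neg 10 (by norm_num)
  have n29 : r 29 = - r 11 := hr.neg 11 (by norm_num)
  have n28 : r 28 = - r 12 := hr.neg 12 (by norm_num)
  have n27 : r 27 = - r 13 := hr.neg 13 (by norm_num)
  have n26 : r 26 = - r 14 := hr.neg 14 (by norm_num)
  have n25 : r 25 = - r 15 := hr.neg 15 (by norm_num)
  have n24 : r 24 = - r 16 := hr.neg 16 (by norm_num)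
  have n23 : r 23 = - r 17 := hr.neg 17 (by norm_num)
  have n22 : r 22 = - r 18 := hr.neg 18 (by norm_num)
  have n21 : r 21 = - r 19 := hr.neg 19 (by norm_num)
  have z0 : r 0 = 0 := hr.zero
  have zh : r 20 = 0 := hr.half 20 (by norm_num)
  have e0 : r 1 + r 21 = r 2 := by
    have h := hr.rel 2 20 1 (by norm_num) (by norm_num) (by norm_num)
    simpa [Finset.sum_range_succ] using h
  rw [n21] at e0
  have e1 : r 2 + r 22 = r 4 := by
    have h := hr.rel 2 20 2 (by norm_num) (by norm_num) (by norm_num)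
    simpa [Finset.sum_range_succ] using h
  rw [n22] at e1
  have e2 : r 3 + r 23 = r 6 := by
    have h := hr.rel 2 20 3 (by norm_num) (by norm_num) (by norm_num)
    simpa [Finset.sum_range_succ] using h
  rw [n23] at e2
  have e3 : r 4 + r 24 = r 8 := by
    have h := hr.rel 2 20 4 (by norm_num) (by norm_num) (by norm_num)
    simpa [Finset.sum_range_succ] using h
  rw [n24] at e3
  have e4 : r 5 + r 25 = r 10 := by
    have h := hr.rel 2 20 5 (by norm_num) (by norm_num) (by norm_num)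
    simpa [Finset.sum_range_succ] using h
  rw [n25] at e4
  have e5 : r 6 + r 26 = r 12 := by
    have h := hr.rel 2 20 6 (by norm_num) (by norm_num) (by norm_num)
    simpa [Finset.sum_range_succ] using h
  rw [n26] at e5
  have e6 : r 7 + r 27 = r 14 := by
    have h := hr.rel 2 20 7 (by norm_num) (by norm_num) (by norm_num)
    simpa [Finset.sum_range_succ] using h
  rw [n27] at e6
  have e7 : r 8 + r 28 = r 16 := by
    have h := hr.rel 2 20 8 (by norm_num) (by norm_num) (by norm_num)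
    simpa [Finset.sum_range_succ] using h
  rw [n28] at e7
  have e8 : r 9 + r 29 = r 18 := by
    have h := hr.rel 2 20 9 (by norm_num) (by norm_num) (by norm_num)
    simpa [Finset.sum_range_succ] using h
  rw [n29] at e8
  have e18 : r 1 + r 9 + r 17 + r 25 + r 33 = r 5 := by
    have h := hr.rel 5 8 1 (by norm_num) (by norm_num) (by norm_num)
    simpa [Finset.sum_range_succ] using h
  rw [n25, n33] at e18
  have e19 : r 2 + r 10 + r 18 + r 26 + r 34 = r 10 := by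
    have h := hr.rel 5 8 2 (by norm_num) (by norm_num) (by norm_num)
    simpa [Finset.sum_range_succ] using h
  rw [n26, n34] at e19
  have h1 : r 1 = 0 := by
    linear_combination (norm := module) (1 : ℚ) • e0 + (1 / 2 : ℚ) • e1 + (1 / 2 : ℚ) • e3 + (1 / 2 : ℚ) • e5 + (-1 : ℚ) • e6 + (-1 / 2 : ℚ) • e7 + (1 / 2 : ℚ) • e19 + (1 : ℚ) • h8 + (1 : ℚ) • h7 + (-1 : ℚ) • h13 + (1 : ℚ) • h19
  have h2 : r 2 = 0 := by
    linear_combination (norm := module) (1 / 2 : ℚ) • e1 + (1 / 2 : ℚ) • e3 + (1 / 2 : ℚ) • e5 + (-1 : ℚ) • e6 + (-1 / 2 : ℚ) • e7 + (1 / 2 : ℚ) • e19 + (1 : ℚ) • h8 + (1 : ℚ) • h7 + (-1 : ℚ) • h13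
  have h3 : r 3 = 0 := by
    linear_combination (norm := module) (-1 : ℚ) • e0 + (-1 / 2 : ℚ) • e1 + (1 : ℚ) • e2 + (-1 / 2 : ℚ) • e3 + (1 / 2 : ℚ) • e5 + (-1 / 2 : ℚ) • e7 + (1 : ℚ) • e18 + (-1 / 2 : ℚ) • e19 + (-1 : ℚ) • h16 + (1 : ℚ) • h5 + (1 : ℚ) • h15 + (1 : ℚ) • h7 + (-1 : ℚ) • h9 + (-1 : ℚ) • h19
  have h4 : r 4 = 0 := by
    linear_combination (norm := module) (1 : ℚ) • e3 + (1 : ℚ) • h8 + (1 : ℚ) • h16
  have h6 : r 6 = 0 := by
    linear_combination (norm := module) (1 : ℚ) • e5 + (-1 : ℚ) • e6 + (-1 : ℚ) • e7 + (1 : ℚ) • h8 + (-1 : ℚ) • h16 + (1 : ℚ) • h7 + (-1 : ℚ) • h13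
  have h10 : r 10 = 0 := by
    linear_combination (norm := module) (-1 : ℚ) • e4 + (1 : ℚ) • h5 + (-1 : ℚ) • h15
  have h11 : r 11 = 0 := by
    linear_combination (norm := module) (1 / 2 : ℚ) • e1 + (1 / 2 : ℚ) • e3 + (-1 / 2 : ℚ) • e5 + (1 : ℚ) • e6 + (1 / 2 : ℚ) • e7 + (-1 : ℚ) • e8 + (-1 / 2 : ℚ) • e19 + (1 : ℚ) • h16 + (-1 : ℚ) • h7 + (1 : ℚ) • h9 + (1 : ℚ) • h13
  have h12 : r 12 = 0 := by
    linear_combination (norm := module) (-1 : ℚ) • e7 + (1 : ℚ) • h8 + (-1 : ℚ) • h16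
  have h14 : r 14 = 0 := by
    linear_combination (norm := module) (-1 : ℚ) • e6 + (1 : ℚ) • h7 + (-1 : ℚ) • h13
  have h17 : r 17 = 0 := by
    linear_combination (norm := module) (-1 : ℚ) • e0 + (-1 / 2 : ℚ) • e1 + (-1 / 2 : ℚ) • e3 + (-1 / 2 : ℚ) • e5 + (1 : ℚ) • e6 + (1 / 2 : ℚ) • e7 + (1 : ℚ) • e18 + (-1 / 2 : ℚ) • e19 + (-1 : ℚ) • h8 + (1 : ℚ) • h5 + (1 : ℚ) • h15 + (-1 : ℚ) • h9 + (1 : ℚ) • h13 + (-1 : ℚ) • h19
  have h18 : r 18 = 0 := by
    linear_combination (norm := module) (-1 / 2 : ℚ) • e1 + (-1 / 2 : ℚ) • e3 + (1 / 2 : ℚ) • e5 + (-1 : ℚ) • e6 + (-1 / 2 : ℚ) • e7 + (1 / 2 : ℚ) • e19 + (-1 : ℚ) • h16 + (1 : ℚ) • h7 + (-1 : ℚ) • h13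
  intro a ha1 ha2
  interval_cases a
  · exact h1
  · exact h2
  · exact h3
  · exact h4
  · exact h5
  · exact h6
  · exact h7
  · exact h8
  · exact h9
  · exact h10
  · exact h11
  · exact h12
  · exact h13
  · exact h14
  · exact h15
  · exact h16
  · exact h17
  · exact h18
  · exact h19
  · exact zh
  · rw [n21, h19, neg_zero]
  · rw [n22, h18, neg_zero]
  · rw [n23, h17, neg_zero]
  · rw [n24, h16, neg_zero]
  · rw [n25, h15, neg_zero]
  · rw [n26, h14, neg_zero]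
  · rw [n27, h13, neg_zero]
  · rw [n28, h12, neg_zero]
  · rw [n29, h11, neg_zero]
  · rw [n30, h10, neg_zero]
  · rw [n31, h9, neg_zero]
  · rw [n32, h8, neg_zero]
  · rw [n33, h7, neg_zero]
  · rw [n34, h6, neg_zero]
  · rw [n35, h5, neg_zero]
  · rw [n36, h4, neg_zero]
  · rw [n37, h3, neg_zero]
  · rw [n38, h2, neg_zero]
  · rw [n39, h1, neg_zero]

theorem gen40 : Gen 40 8 g40 := by
  refine ⟨by decide, fun K hK => ?_⟩
  intro a h1 h2
  rw [← H_zero_iff K a 40 h1 h2]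
  have h3 : ∀ b, 1 ≤ b → b < 40 → IsAlgebraic K ((Rr 40 b : ℝ) : ℂ) → rr K 40 b = 0 :=
    fun b hb1 hb2 hb => (H_zero_iff K b 40 hb1 hb2).2 hb
  exact lin40 (rr K 40) (relF K 40 (by norm_num)) (h3 8 (by norm_num) (by norm_num) (hK 0)) (h3 16 (by norm_num) (by norm_num) (hK 1)) (h3 5 (by norm_num) (by norm_num) (hK 2)) (h3 15 (by norm_num) (by norm_num) (hK 3)) (h3 7 (by norm_num) (by norm_num) (hK 4)) (h3 9 (by norm_num) (by norm_num) (hK 5)) (h3 13 (by norm_num) (by norm_num) (hK 6)) (h3 19 (by norm_num) (by norm_num) (hK 7)) a h1 h2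

end Pool.Agent.Helper98.DJ
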