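import Pool.Agent.Helper98.DJ.Df
import Pool.Agent.Helper98.DJ.Rl

/-!
# Project DJ (MP_274814_nt): level 45
-/

set_option autoImplicit false

namespace Pool.Agent.Helper98.DJ

open Set Pool.Agent.Helper24.LU Pool.Agent.Helper24.LRDefs

/-- Level 45: linear algebra of the relations. -/
private theorem lin45 {M : Type*} [AddCommGroup M] [Module ℚ M] (r : ℕ → M)
    (hr : RelF 45 r)
    (h9 : r 9 = 0)
    (h18 : r 18 = 0)
    (h5 : r 5 = 0)
    (h10 : r 10 = 0)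
    (h20 : r 20 = 0)
    (h1 : r 1 = 0)
    (h2 : r 2 = 0)
    (h4 : r 4 = 0)
    (h7 : r 7 = 0)
    (h8 : r 8 = 0)
    (h11 : r 11 = 0)
    (h14 : r 14 = 0)
    : ∀ a, 1 ≤ a → a < 45 → r a = 0 := by
  have n44 : r 44 = - r 1 := hr.neg 1 (by norm_num)
  have n43 : r 43 = - r 2 := hr.neg 2 (by norm_num)
  have n42 : r 42 = - r 3 := hr.neg 3 (by norm_num)
  have n41 : r 41 = - r 4 := hr.neg 4 (by norm_num)
  have n40 : r 40 = - r 5 := hr.neg 5 (by norm_num)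
  have n39 : r 39 = - r 6 := hr.neg 6 (by norm_num)
  have n38 : r 38 = - r 7 := hr.neg 7 (by norm_num)
  have n37 : r 37 = - r 8 := hr.neg 8 (by norm_num)
  have n36 : r 36 = - r 9 := hr.neg 9 (by norm_num)
  have n35 : r 35 = - r 10 := hr.neg 10 (by norm_num)
  have n34 : r 34 = - r 11 := hr.neg 11 (by norm_num)
  have n33 : r 33 = - r 12 := hr.neg 12 (by norm_num)
  have n32 : r 32 = - r 13 := hr.neg 13 (by norm_num)
  have n31 : r 31 = - r 14 := hr.neg 14 (by norm_num)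
  have n30 : r 30 = - r 15 := hr.neg 15 (by norm_num)
  have n29 : r 29 = - r 16 := hr.neg 16 (by norm_num)
  have n28 : r 28 = - r 17 := hr.neg 17 (by norm_num)
  have n27 : r 27 = - r 18 := hr.neg 18 (by norm_num)
  have n26 : r 26 = - r 19 := hr.neg 19 (by norm_num)
  have n25 : r 25 = - r 20 := hr.neg 20 (by norm_num)
  have n24 : r 24 = - r 21 := hr.neg 21 (by norm_num)
  have n23 : r 23 = - r 22 := hr.neg 22 (by norm_num)
  have z0 : r 0 = 0 := hr.zero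
  have e0 : r 1 + r 16 + r 31 = r 3 := by
    have h := hr.rel 3 15 1 (by norm_num) (by norm_num) (by norm_num)
    simpa [Finset.sum_range_succ] using h
  rw [n31] at e0
  have e1 : r 2 + r 17 + r 32 = r 6 := by
    have h := hr.rel 3 15 2 (by norm_num) (by norm_num) (by norm_num)
    simpa [Finset.sum_range_succ] using h
  rw [n32] at e1
  have e2 : r 3 + r 18 + r 33 = r 9 := by
    have h := hr.rel 3 15 3 (by norm_num) (by norm_num) (by norm_num)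
    simpa [Finset.sum_range_succ] using h
  rw [n33] at e2
  have e3 : r 4 + r 19 + r 34 = r 12 := by
    have h := hr.rel 3 15 4 (by norm_num) (by norm_num) (by norm_num)
    simpa [Finset.sum_range_succ] using h
  rw [n34] at e3
  have e4 : r 5 + r 20 + r 35 = r 15 := by
    have h := hr.rel 3 15 5 (by norm_num) (by norm_num) (by norm_num)
    simpa [Finset.sum_range_succ] using h
  rw [n35] at e4
  have e5 : r 6 + r 21 + r 36 = r 18 := by
    have h := hr.rel 3 15 6 (by norm_num) (by norm_num) (by norm_num)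
    simpa [Finset.sum_range_succ] using h
  rw [n36] at e5
  have e6 : r 7 + r 22 + r 37 = r 21 := by
    have h := hr.rel 3 15 7 (by norm_num) (by norm_num) (by norm_num)
    simpa [Finset.sum_range_succ] using h
  rw [n37] at e6
  have e14 : r 1 + r 10 + r 19 + r 28 + r 37 = r 5 := by
    have h := hr.rel 5 9 1 (by norm_num) (by norm_num) (by norm_num)
    simpa [Finset.sum_range_succ] using h
  rw [n28, n37] at e14
  have e15 : r 2 + r 11 + r 20 + r 29 + r 38 = r 10 := by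
    have h := hr.rel 5 9 2 (by norm_num) (by norm_num) (by norm_num)
    simpa [Finset.sum_range_succ] using h
  rw [n29, n38] at e15
  have e16 : r 3 + r 12 + r 21 + r 30 + r 39 = r 15 := by
    have h := hr.rel 5 9 3 (by norm_num) (by norm_num) (by norm_num)
    simpa [Finset.sum_range_succ] using h
  rw [n30, n39] at e16
  have h3 : r 3 = 0 := by
    linear_combination (norm := module) (-1 : ℚ) • e0 + (-1 : ℚ) • e15 + (-1 : ℚ) • h10 + (1 : ℚ) • h20 + (1 : ℚ) • h1 + (1 : ℚ) • h2 + (-1 : ℚ) • h7 + (1 : ℚ) • h11 + (-1 : ℚ) • h14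
  have h6 : r 6 = 0 := by
    linear_combination (norm := module) (-1 : ℚ) • e0 + (-1 / 2 : ℚ) • e2 + (1 : ℚ) • e4 + (1 / 2 : ℚ) • e5 + (-1 : ℚ) • e15 + (-1 / 2 : ℚ) • e16 + (1 : ℚ) • h18 + (-1 : ℚ) • h5 + (1 : ℚ) • h1 + (1 : ℚ) • h2 + (-1 : ℚ) • h7 + (1 : ℚ) • h11 + (-1 : ℚ) • h14
  have h12 : r 12 = 0 := by
    linear_combination (norm := module) (-1 : ℚ) • e0 + (-1 : ℚ) • e2 + (-1 : ℚ) • e15 + (-1 : ℚ) • h9 + (1 : ℚ) • h18 + (-1 : ℚ) • h10 + (1 : ℚ) • h20 + (1 : ℚ) • h1 + (1 : ℚ) • h2 + (-1 : ℚ) • h7 + (1 : ℚ) • h11 + (-1 : ℚ) • h14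
  have h13 : r 13 = 0 := by
    linear_combination (norm := module) (-1 : ℚ) • e1 + (-1 / 2 : ℚ) • e2 + (1 : ℚ) • e3 + (-1 : ℚ) • e4 + (-1 / 2 : ℚ) • e5 + (-1 : ℚ) • e14 + (1 / 2 : ℚ) • e16 + (-1 : ℚ) • h9 + (1 : ℚ) • h20 + (1 : ℚ) • h1 + (1 : ℚ) • h2 + (-1 : ℚ) • h4 + (-1 : ℚ) • h8 + (1 : ℚ) • h11
  have h15 : r 15 = 0 := by
    linear_combination (norm := module) (-1 : ℚ) • e4 + (1 : ℚ) • h5 + (-1 : ℚ) • h10 + (1 : ℚ) • h20
  have h16 : r 16 = 0 := by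
    linear_combination (norm := module) (-1 : ℚ) • e15 + (-1 : ℚ) • h10 + (1 : ℚ) • h20 + (1 : ℚ) • h2 + (-1 : ℚ) • h7 + (1 : ℚ) • h11
  have h17 : r 17 = 0 := by
    linear_combination (norm := module) (-1 : ℚ) • e0 + (-1 : ℚ) • e2 + (1 : ℚ) • e3 + (-1 : ℚ) • e14 + (-1 : ℚ) • e15 + (-1 : ℚ) • h9 + (1 : ℚ) • h18 + (-1 : ℚ) • h5 + (1 : ℚ) • h20 + (2 : ℚ) • h1 + (1 : ℚ) • h2 + (-1 : ℚ) • h4 + (-1 : ℚ) • h7 + (-1 : ℚ) • h8 + (2 : ℚ) • h11 + (-1 : ℚ) • h14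
  have h19 : r 19 = 0 := by
    linear_combination (norm := module) (-1 : ℚ) • e0 + (-1 : ℚ) • e2 + (1 : ℚ) • e3 + (-1 : ℚ) • e15 + (-1 : ℚ) • h9 + (1 : ℚ) • h18 + (-1 : ℚ) • h10 + (1 : ℚ) • h20 + (1 : ℚ) • h1 + (1 : ℚ) • h2 + (-1 : ℚ) • h4 + (-1 : ℚ) • h7 + (2 : ℚ) • h11 + (-1 : ℚ) • h14
  have h21 : r 21 = 0 := by
    linear_combination (norm := module) (1 : ℚ) • e0 + (1 / 2 : ℚ) • e2 + (-1 : ℚ) • e4 + (1 / 2 : ℚ) • e5 + (1 : ℚ) • e15 + (1 / 2 : ℚ) • e16 + (1 : ℚ) • h9 + (1 : ℚ) • h5 + (-1 : ℚ) • h1 + (-1 : ℚ) • h2 + (1 : ℚ) • h7 + (-1 : ℚ) • h11 + (1 : ℚ) • h14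
  have h22 : r 22 = 0 := by
    linear_combination (norm := module) (1 : ℚ) • e0 + (1 / 2 : ℚ) • e2 + (-1 : ℚ) • e4 + (1 / 2 : ℚ) • e5 + (1 : ℚ) • e6 + (1 : ℚ) • e15 + (1 / 2 : ℚ) • e16 + (1 : ℚ) • h9 + (1 : ℚ) • h5 + (-1 : ℚ) • h1 + (-1 : ℚ) • h2 + (1 : ℚ) • h8 + (-1 : ℚ) • h11 + (1 : ℚ) • h14
  intro a ha1 ha2
  interval_cases a
  · exact h1
  · exact h2
  · exact h3
  · exact h4
  · exact h5
  · exact h6
  · exact h7
  · exact h8
  · exact h9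
  · exact h10
  · exact h11
  · exact h12
  · exact h13
  · exact h14
  · exact h15
  · exact h16
  · exact h17
  · exact h18
  · exact h19
  · exact h20
  · exact h21
  · exact h22
  · rw [n23, h22, neg_zero]
  · rw [n24, h21, neg_zero]
  · rw [n25, h20, neg_zero]
  · rw [n26, h19, neg_zero]
  · rw [n27, h18, neg_zero]
  · rw [n28, h17, neg_zero]
  · rw [n29, h16, neg_zero]
  · rw [n30, h15, neg_zero]
  · rw [n31, h14, neg_zero]
  · rw [n32, h13, neg_zero]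
  · rw [n33, h12, neg_zero]
  · rw [n34, h11, neg_zero]
  · rw [n35, h10, neg_zero]
  · rw [n36, h9, neg_zero]
  · rw [n37, h8, neg_zero]
  · rw [n38, h7, neg_zero]
  · rw [n39, h6, neg_zero]
  · rw [n40, h5, neg_zero]
  · rw [n41, h4, neg_zero]
  · rw [n42, h3, neg_zero]
  · rw [n43, h2, neg_zero]
  · rw [n44, h1, neg_zero]

theorem gen45 : Gen 45 12 g45 := by
  refine ⟨by decide, fun K hK => ?_⟩
  intro a h1 h2
  rw [← H_zero_iff K a 45 h1 h2]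
  have h3 : ∀ b, 1 ≤ b → b < 45 → IsAlgebraic K ((Rr 45 b : ℝ) : ℂ) → rr K 45 b = 0 :=
    fun b hb1 hb2 hb => (H_zero_iff K b 45 hb1 hb2).2 hb
  exact lin45 (rr K 45) (relF K 45 (by norm_num)) (h3 9 (by norm_num) (by norm_num) (hK 0)) (h3 18 (by norm_num) (by norm_num) (hK 1)) (h3 5 (by norm_num) (by norm_num) (hK 2)) (h3 10 (by norm_num) (by norm_num) (hK 3)) (h3 20 (by norm_num) (by norm_num) (hK 4)) (h3 1 (by norm_num) (by norm_num) (hK 5)) (h3 2 (by norm_num) (by norm_num) (hK 6)) (h3 4 (by norm_num) (by norm_num) (hK 7)) (h3 7 (by norm_num) (by norm_num) (hK 8)) (h3 8 (by norm_num) (by norm_num) (hK 9)) (h3 11 (by norm_num) (by norm_num) (hK 10)) (h3 14 (by norm_num) (by norm_num) (hK 11)) a h1 h2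

end Pool.Agent.Helper98.DJ
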