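import Pool.Agent.Helper98.DJ.E2
import Pool.Agent.Helper98.DJ.G35
import Pool.Agent.Helper98.DJ.G40
import Pool.Agent.Helper98.DJ.G45

/-!
# Project DJ (MP_274814_nt): two levels together
-/

set_option autoImplicit false

namespace Pool.Agent.Helper98.DJ

open Set Pool.Agent.Helper24.LU Pool.Agent.Helper24.LRDefs

private theorem sum_aux (Q n : ℕ) (g : Fin n → ℕ)
    (hind : AlgebraicIndependent ℚ (fun i => ((Rr Q (g i) : ℝ) : ℂ))) (q1 q2 m1 m2 : ℕ)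
    (hm1 : 0 < m1) (hm2 : 0 < m2)
    (h1 : ∀ a : ℕ, Rr q1 a = Rr Q (m1 * a)) (h2 : ∀ a : ℕ, Rr q2 a = Rr Q (m2 * a))
    (he1 : ∀ a : Pidx q1, ∃ i, g i = m1 * a) (he2 : ∀ a : Pidx q2, ∃ i, g i = m2 * a)
    (hne : ∀ (a : Pidx q1) (b : Pidx q2), m1 * (a : ℕ) ≠ m2 * b) : AlgebraicIndependent ℚ
    (Sum.elim (fun a : Pidx q1 => ((Rr q1 a : ℝ) : ℂ))
      (fun a : Pidx q2 => ((Rr q2 a : ℝ) : ℂ))) := by
  choose e1 he1 using he1
  choose e2 he2 using he2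
  have hinj : Function.Injective (Sum.elim e1 e2) := by
    rintro (a | a) (b | b) hab
    · change e1 a = e1 b at hab
      have h3 := he1 a
      rw [hab, he1 b] at h3
      rw [Subtype.ext (Nat.eq_of_mul_eq_mul_left hm1 h3)]
    · change e1 a = e2 b at hab
      have h3 := he1 a
      rw [hab, he2 b] at h3
      exact absurd h3.symm (hne a b)
    · change e2 a = e1 b at hab
      have h3 := he2 a
      rw [hab, he1 b] at h3
      exact absurd h3 (hne b a)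
    · change e2 a = e2 b at hab
      have h3 := he2 a
      rw [hab, he2 b] at h3
      rw [Subtype.ext (Nat.eq_of_mul_eq_mul_left hm2 h3)]
  have h := hind.comp _ hinj
  have h0 : Sum.elim (fun a : Pidx q1 => ((Rr q1 a : ℝ) : ℂ))
      (fun a : Pidx q2 => ((Rr q2 a : ℝ) : ℂ)) =
      (fun i => ((Rr Q (g i) : ℝ) : ℂ)) ∘ Sum.elim e1 e2 := by
    refine funext fun x => Eq.symm ?_
    rcases x with a | a
    · change ((Rr Q (g (e1 a)) : ℝ) : ℂ) = ((Rr q1 a : ℝ) : ℂ)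
      rw [he1, h1]
    · change ((Rr Q (g (e2 a)) : ℝ) : ℂ) = ((Rr q2 a : ℝ) : ℂ)
      rw [he2, h2]
  rw [h0]
  exact h

private theorem sum_level (q m Q : ℕ) (hm : 0 < m) (hQ : Q = m * q) (a : ℕ) :
    Rr q a = Rr Q (m * a) := by
  have hm' : (m : ℝ) ≠ 0 := by exact_mod_cast hm.ne'
  unfold Rr
  rw [hQ, Nat.cast_mul, Nat.cast_mul, mul_div_mul_left _ _ hm']

private theorem sum_p5 (a : Pidx 5) : (a : ℕ) = 1 ∨ (a : ℕ) = 2 := by
  obtain ⟨a, ha⟩ := a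
  rw [Finset.mem_filter, Finset.mem_range] at ha
  obtain ⟨h1, h2, h3⟩ := ha
  have h4 : a ≠ 0 := by
    rintro rfl
    simp at h3
  change a = 1 ∨ a = 2
  omega

private theorem sum_p7 (a : Pidx 7) : (a : ℕ) = 1 ∨ (a : ℕ) = 2 ∨ (a : ℕ) = 3 := by
  obtain ⟨a, ha⟩ := a
  rw [Finset.mem_filter, Finset.mem_range] at ha
  obtain ⟨h1, h2, h3⟩ := ha
  have h4 : a ≠ 0 := by
    rintro rfl
    simp at h3
  change a = 1 ∨ a = 2 ∨ a = 3
  omega

private theorem sum_p8 (a : Pidx 8) : (a : ℕ) = 1 ∨ (a : ℕ) = 3 := by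
  obtain ⟨a, ha⟩ := a
  rw [Finset.mem_filter, Finset.mem_range] at ha
  obtain ⟨h1, h2, h3⟩ := ha
  have h4 : a ≠ 0 := by
    rintro rfl
    simp at h3
  have h5 : a ≠ 2 := by
    rintro rfl
    revert h3
    decide
  change a = 1 ∨ a = 3
  omega

private theorem sum_p9 (a : Pidx 9) : (a : ℕ) = 1 ∨ (a : ℕ) = 2 ∨ (a : ℕ) = 4 := by
  obtain ⟨a, ha⟩ := a
  rw [Finset.mem_filter, Finset.mem_range] at ha
  obtain ⟨h1, h2, h3⟩ := ha
  have h4 : a ≠ 0 := by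
    rintro rfl
    simp at h3
  have h5 : a ≠ 3 := by
    rintro rfl
    revert h3
    decide
  change a = 1 ∨ a = 2 ∨ a = 4
  omega

/-- DJ-4. The primitive ratios of level `q` and of level `5` (both as members of the family of
level `5 q`) : `Rr_level`, `indep_of_gen`, injectivity of the two index maps. -/
theorem sum35 (h : HasInd 35 12) : AlgebraicIndependent ℚ
    (Sum.elim (fun a : Pidx 5 => ((Rr 5 a : ℝ) : ℂ)) (fun a : Pidx 7 => ((Rr 7 a : ℝ) : ℂ))) := by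
  refine sum_aux 35 12 g35 (indep_of_gen 35 12 g35 gen35 h) 5 7 7 5 (by norm_num) (by norm_num)
    (sum_level 5 7 35 (by norm_num) (by norm_num)) (sum_level 7 5 35 (by norm_num) (by norm_num))
    (fun a => ?_) (fun a => ?_) (fun a b => ?_)
  · rcases sum_p5 a with h1 | h1 <;> rw [h1]
    · exact ⟨0, rfl⟩
    · exact ⟨1, rfl⟩
  · rcases sum_p7 a with h1 | h1 | h1 <;> rw [h1]
    · exact ⟨2, rfl⟩
    · exact ⟨3, rfl⟩
    · exact ⟨4, rfl⟩
  · rcases sum_p5 a with h1 | h1 <;> rcases sum_p7 b with h2 | h2 | h2 <;> rw [h1, h2] <;>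
      norm_num

theorem sum40 (h : HasInd 40 8) : AlgebraicIndependent ℚ
    (Sum.elim (fun a : Pidx 5 => ((Rr 5 a : ℝ) : ℂ)) (fun a : Pidx 8 => ((Rr 8 a : ℝ) : ℂ))) := by
  refine sum_aux 40 8 g40 (indep_of_gen 40 8 g40 gen40 h) 5 8 8 5 (by norm_num) (by norm_num)
    (sum_level 5 8 40 (by norm_num) (by norm_num)) (sum_level 8 5 40 (by norm_num) (by norm_num))
    (fun a => ?_) (fun a => ?_) (fun a b => ?_)
  · rcases sum_p5 a with h1 | h1 <;> rw [h1]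
    · exact ⟨0, rfl⟩
    · exact ⟨1, rfl⟩
  · rcases sum_p8 a with h1 | h1 <;> rw [h1]
    · exact ⟨2, rfl⟩
    · exact ⟨3, rfl⟩
  · rcases sum_p5 a with h1 | h1 <;> rcases sum_p8 b with h2 | h2 <;> rw [h1, h2] <;>
      norm_num

theorem sum45 (h : HasInd 45 12) : AlgebraicIndependent ℚ
    (Sum.elim (fun a : Pidx 5 => ((Rr 5 a : ℝ) : ℂ)) (fun a : Pidx 9 => ((Rr 9 a : ℝ) : ℂ))) := by
  refine sum_aux 45 12 g45 (indep_of_gen 45 12 g45 gen45 h) 5 9 9 5 (by norm_num) (by norm_num)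
    (sum_level 5 9 45 (by norm_num) (by norm_num)) (sum_level 9 5 45 (by norm_num) (by norm_num))
    (fun a => ?_) (fun a => ?_) (fun a b => ?_)
  · rcases sum_p5 a with h1 | h1 <;> rw [h1]
    · exact ⟨0, rfl⟩
    · exact ⟨1, rfl⟩
  · rcases sum_p9 a with h1 | h1 | h1 <;> rw [h1]
    · exact ⟨2, rfl⟩
    · exact ⟨3, rfl⟩
    · exact ⟨4, rfl⟩
  · rcases sum_p5 a with h1 | h1 <;> rcases sum_p9 b with h2 | h2 | h2 <;> rw [h1, h2] <;>
      norm_num

end Pool.Agent.Helper98.DJ
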