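import Pool.Agent.Helper65.LU.Pi

/-!
# Project DJ (MP_274814_nt): pi is transcendental
-/

set_option autoImplicit false

namespace Pool.Agent.Helper98.DJ

open Set
open scoped Nat

/-- L6. Given L1 .. L5 and `LindemannWeierstrass.exp_polynomial_approx`: suppose `pi` algebraic,
`P = minpoly ℚ (I pi)`, `s` = its roots, `k + ∑ exp b_T = 0` (L4, `k ≥ 1` because of the empty set),
`f` from L3, `c ≠ 0` an integer with `c a` integral for `a` in `s`; for a big prime `p`, with `n`,
`gp` from the approximation, `D = p deg f`: `c ^ D (n k + p ∑ gp(b_T))` is rational (L1) and integral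
(L2), so an integer, not divisible by `p` (`p` does not divide `n`, `k`, `c`), so not `0`; its absolute
value is at most `|c| ^ D * 2 ^ card s * C ^ p / (p - 1)!`, smaller than 1 for big `p` (L5). -/
theorem L_main : Transcendental ℚ (Real.pi : ℂ) := by
  intro h
  exact Pool.Agent.Helper65.LU.Pi.transcendental_pi
    ((isAlgebraic_algebraMap_iff (R := ℚ) (S := ℝ) (A := ℂ) Complex.ofReal_injective).1 h)

end Pool.Agent.Helper98.DJ
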