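import Pool.Agent.Helper98.DJ.E1
import Pool.Agent.Helper98.DJ.E3
import Pool.Agent.Helper98.DJ.E4
import Pool.Agent.Helper98.DJ.L6

/-!
# Project DJ (MP_274814_nt): the theorem
-/

set_option autoImplicit false

namespace Pool.Agent.Helper98.DJ

open Set Pool.Agent.Helper24.LU Pool.Agent.Helper24.LRDefs

/-- DJ-5. The theorem of the project. -/
theorem disj (h35 : HasInd 35 12) (h40 : HasInd 40 8) (h45 : HasInd 45 12) :
    LR 5 ∨ (LR 7 ∧ LR 8 ∧ LR 9) := by
  have i5 : AlgebraicIndependent ℚ (fun a : Pidx 5 => ((Rr 5 a : ℝ) : ℂ)) :=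
    (sum35 h35).comp Sum.inl Sum.inl_injective
  by_cases h : IsAlgebraic
      (Algebra.adjoin ℚ (range fun a : Pidx 5 => ((Rr 5 a : ℝ) : ℂ))) (Real.pi : ℂ)
  · right
    refine ⟨?_, ?_, ?_⟩
    · exact LR_of 7 (by norm_num) ((sum35 h35).comp Sum.inr Sum.inr_injective)
        fun h7 => L_main (inter_alg _ _ (sum35 h35) _ h h7)
    · exact LR_of 8 (by norm_num) ((sum40 h40).comp Sum.inr Sum.inr_injective)
        fun h8 => L_main (inter_alg _ _ (sum40 h40) _ h h8)
    · exact LR_of 9 (by norm_num) ((sum45 h45).comp Sum.inr Sum.inr_injective)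
        fun h9 => L_main (inter_alg _ _ (sum45 h45) _ h h9)
  · left
    exact LR_of 5 (by norm_num) i5 h

end Pool.Agent.Helper98.DJ
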