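import Pool.Agent.Helper98.DJ.E5
import Pool.Agent.Helper65.LU.Px
import Pool.Agent.Helper34.LU.Fin

/-!
# Project DJ (MP_274814_nt): explicit form
-/

set_option autoImplicit false

namespace Pool.Agent.Helper98.DJ

open Set Pool.Agent.Helper24.LU Pool.Agent.Helper24.LRDefs

/-- From a finite set of numerators to a family. -/
theorem hasInd_of_Ind {q n : ℕ} (h : Ind q n) : HasInd q n := by
  obtain ⟨S, h1, h2, h3⟩ := h
  have e : Fin n ≃ S := (Fintype.equivFinOfCardEq (by rw [Fintype.card_coe, h1])).symm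
  exact ⟨fun k => ⟨(e k : ℕ), h2 _ (e k).2⟩, h3.comp e e.injective⟩

theorem disj_LR : LR 5 ∨ (LR 7 ∧ LR 8 ∧ LR 9) := by
  obtain ⟨-, -, h3, -⟩ := Pool.Agent.Helper34.LUM.final
  exact disj (hasInd_of_Ind (h3 35 (by decide))) (hasInd_of_Ind (h3 40 (by decide)))
    (hasInd_of_Ind (h3 45 (by decide)))

end Pool.Agent.Helper98.DJ
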