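import Mathlib

/-!
# Project DJ (MP_274814_nt): Lindemann, L_rat
-/

set_option autoImplicit false

namespace Pool.Agent.Helper98.DJ

open Set
open scoped Nat

open Polynomial in
private theorem l1_map {E F : Type} [Field E] [Field F] [DecidableEq E] [DecidableEq F]
    (f : E →+* F) (S : Finset E) (g : ℤ[X]) :
    ∑ T ∈ (S.image f).powerset.filter (fun T => ∑ a ∈ T, a ≠ 0), aeval (∑ a ∈ T, a) g =
      f (∑ T ∈ S.powerset.filter (fun T => ∑ a ∈ T, a ≠ 0), aeval (∑ a ∈ T, a) g) := by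
  have hs : ∀ T : Finset E, ∑ a ∈ T.image f, a = f (∑ a ∈ T, a) := fun T => by
    rw [Finset.sum_image fun x _ y _ h => f.injective h, map_sum]
  rw [map_sum]
  symm
  refine Finset.sum_nbij (fun T => T.image f) ?_ ?_ ?_ ?_
  · intro T hT
    rw [Finset.mem_filter, Finset.mem_powerset] at hT ⊢
    refine ⟨Finset.image_subset_image hT.1, ?_⟩
    rw [hs]
    exact fun h => hT.2 ((map_eq_zero f).1 h)
  · intro T _ T' _ h
    exact Finset.image_injective f.injective h
  · intro T' hT'
    rw [Finset.mem_coe, Finset.mem_filter, Finset.mem_powerset, Finset.subset_image_iff] at hT'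
    obtain ⟨⟨T, hT, rfl⟩, h⟩ := hT'
    refine ⟨T, ?_, rfl⟩
    rw [Finset.mem_coe, Finset.mem_filter, Finset.mem_powerset]
    refine ⟨hT, fun h1 => h ?_⟩
    rw [hs, h1, map_zero]
  · intro T _
    rw [hs, aeval_def, aeval_def, hom_eval₂]
    congr 1
    exact RingHom.ext_int _ _

open Polynomial in
private theorem l1_roots (P : ℚ[X]) {K F : Type} [Field K] [Algebra ℚ K]
    [IsSplittingField ℚ K P] [DecidableEq K] [Field F] [DecidableEq F] [Algebra ℚ F]
    (f : K →ₐ[ℚ] F) :
    (P.aroots K).toFinset.image (f : K →+* F) = (P.aroots F).toFinset := by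
  have h1 : (f : K →+* F).comp (algebraMap ℚ K) = algebraMap ℚ F := f.comp_algebraMap
  have h := (IsSplittingField.splits K P).roots_map (f : K →+* F)
  rw [Polynomial.map_map, h1] at h
  rw [aroots_def, aroots_def, h]
  ext x
  simp

open Polynomial in
private theorem l1_main (P : ℚ[X]) (g : ℤ[X]) (K : Type) [Field K] [Algebra ℚ K]
    [IsSplittingField ℚ K P] [DecidableEq K] :
    ∃ r : ℚ, ∑ T ∈ (P.aroots ℂ).toFinset.powerset.filter (fun T => ∑ a ∈ T, a ≠ 0),
      aeval (∑ a ∈ T, a) g = (r : ℂ) := by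
  have hF : FiniteDimensional ℚ K := IsSplittingField.finiteDimensional K P
  have hN : Normal ℚ K := Normal.of_isSplittingField P
  have hG : IsGalois ℚ K := ⟨⟩
  obtain ⟨e⟩ : Nonempty (K →ₐ[ℚ] ℂ) := ⟨IsAlgClosed.lift⟩
  have hb : (∑ T ∈ (P.aroots K).toFinset.powerset.filter
      (fun T => ∑ a ∈ T, a ≠ 0), aeval (∑ a ∈ T, a) g) ∈ (⊥ : IntermediateField ℚ K) := by
    rw [IsGalois.mem_bot_iff_fixed]
    intro σ
    have h1 := l1_map ((σ : K →ₐ[ℚ] K) : K →+* K) (P.aroots K).toFinset g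
    rw [l1_roots P (σ : K →ₐ[ℚ] K)] at h1
    exact h1.symm
  obtain ⟨r, hr⟩ := IntermediateField.mem_bot.1 hb
  refine ⟨r, ?_⟩
  have h4 := l1_map (e : K →+* ℂ) (P.aroots K).toFinset g
  rw [l1_roots P e, ← hr] at h4
  rw [h4]
  exact (e.commutes r).trans (eq_ratCast _ r)

open Polynomial in
/-- L1. The sum is fixed by every automorphism of the algebraic closure `algebraicClosure ℚ ℂ` (or of
a splitting field of `P` in `C`), because automorphisms permute the roots of `P`, hence the subsets of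
the set of roots. -/
theorem L_rat (P : ℚ[X]) (hP : P ≠ 0) (g : ℤ[X]) :
    ∃ r : ℚ, ∑ T ∈ (P.aroots ℂ).toFinset.powerset.filter (fun T => ∑ a ∈ T, a ≠ 0),
      aeval (∑ a ∈ T, a) g = (r : ℂ) := by
  classical
  exact @l1_main P g P.SplittingField _ _ (IsSplittingField.splittingField P) _

end Pool.Agent.Helper98.DJ
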