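import Mathlib

/-!
# Project DJ (MP_274814_nt): Lindemann, L_int
-/

set_option autoImplicit false

namespace Pool.Agent.Helper98.DJ

open Set
open scoped Nat

open Polynomial in
/-- L2. `c ^ D * b ^ k = c ^ (D - k) * (c * b) ^ k`. -/
theorem L_int (s : Finset ℂ) (c : ℤ) (hc : ∀ a ∈ s, IsIntegral ℤ ((c : ℂ) * a)) (g : ℤ[X])
    (D : ℕ) (hD : g.natDegree ≤ D) :
    IsIntegral ℤ ((c : ℂ) ^ D *
      ∑ T ∈ s.powerset.filter (fun T => ∑ a ∈ T, a ≠ 0), aeval (∑ a ∈ T, a) g) := by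
  rw [Finset.mul_sum]
  refine IsIntegral.sum _ fun T hT => ?_
  have hT' : T ⊆ s := Finset.mem_powerset.1 (Finset.mem_filter.1 hT).1
  have hb : IsIntegral ℤ ((c : ℂ) * ∑ a ∈ T, a) := by
    rw [Finset.mul_sum]
    exact IsIntegral.sum _ fun a ha => hc a (hT' ha)
  rw [aeval_eq_sum_range, Finset.mul_sum]
  refine IsIntegral.sum _ fun k hk => ?_
  have hk' : k ≤ D := (Nat.lt_succ_iff.1 (Finset.mem_range.1 hk)).trans hD
  have h1 : (c : ℂ) ^ D * (g.coeff k • (∑ a ∈ T, a) ^ k) =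
      ((g.coeff k * c ^ (D - k) : ℤ) : ℂ) * ((c : ℂ) * ∑ a ∈ T, a) ^ k := by
    rw [mul_pow, zsmul_eq_mul]
    push_cast
    have h2 : (c : ℂ) ^ D = (c : ℂ) ^ (D - k) * (c : ℂ) ^ k := by
      rw [← pow_add, Nat.sub_add_cancel hk']
    rw [h2]
    ring
  rw [h1]
  exact (isIntegral_algebraMap (R := ℤ) (A := ℂ) (x := g.coeff k * c ^ (D - k))).mul (hb.pow k)

end Pool.Agent.Helper98.DJ
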