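import Mathlib

/-!
# Project DJ (MP_274814_nt): Lindemann, L_poly
-/

set_option autoImplicit false

namespace Pool.Agent.Helper98.DJ

open Set
open scoped Nat

open Polynomial in
/-- L3. Product of the integral polynomials (denominators cleared from `minpoly ℚ b`). -/
theorem L_poly (S : Finset ℂ) (h : ∀ b ∈ S, IsAlgebraic ℚ b ∧ b ≠ 0) :
    ∃ f : ℤ[X], f.eval 0 ≠ 0 ∧ ∀ b ∈ S, b ∈ f.aroots ℂ := by
  classical
  induction S using Finset.induction_on with
  | empty => exact ⟨1, by simp, by simp⟩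
  | insert b S hb ih =>
    obtain ⟨f, hf0, hf⟩ := ih fun c hc => h c (Finset.mem_insert_of_mem hc)
    obtain ⟨h1, h2⟩ := h b (Finset.mem_insert_self b S)
    have h3 : IsAlgebraic ℤ b := (IsFractionRing.isAlgebraic_iff ℤ ℚ ℂ).2 h1
    obtain ⟨g, hg0, hg⟩ := h3.exists_nonzero_coeff_and_aeval_eq_zero (mem_nonZeroDivisors_of_ne_zero h2)
    have hg0' : g.eval 0 ≠ 0 := by
      rwa [← coeff_zero_eq_eval_zero]
    have hfg : f * g ≠ 0 := by
      intro h0
      have h4 : (f * g).eval 0 = 0 := by rw [h0, eval_zero]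
      rw [eval_mul] at h4
      exact (mul_ne_zero hf0 hg0') h4
    refine ⟨f * g, ?_, ?_⟩
    · rw [eval_mul]
      exact mul_ne_zero hf0 hg0'
    · intro c hc
      rw [mem_aroots]
      refine ⟨hfg, ?_⟩
      rw [map_mul]
      rcases Finset.mem_insert.1 hc with rfl | hc
      · rw [hg, mul_zero]
      · rw [(mem_aroots.1 (hf c hc)).2, zero_mul]

end Pool.Agent.Helper98.DJ
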