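import Mathlib

/-!
# Project DJ (MP_274814_nt): Lindemann, L_prod
-/

set_option autoImplicit false

namespace Pool.Agent.Helper98.DJ

open Set
open scoped Nat

/-- L4. `∏ (1 + exp a) = 0`, expand (`Finset.prod_one_add` or `Finset.prod_add`). -/
theorem L_prod (s : Finset ℂ) (h : ∃ a ∈ s, Complex.exp a = -1) :
    ((s.powerset.filter (fun T => ∑ a ∈ T, a = 0)).card : ℂ) +
      ∑ T ∈ s.powerset.filter (fun T => ∑ a ∈ T, a ≠ 0), Complex.exp (∑ a ∈ T, a) = 0 := by
  classical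
  obtain ⟨a0, ha0, h0⟩ := h
  have h1 : ∏ a ∈ s, (1 + Complex.exp a) = 0 :=
    Finset.prod_eq_zero ha0 (by rw [h0]; ring)
  rw [Finset.prod_one_add] at h1
  have h2 : ∀ T ∈ s.powerset, ∏ a ∈ T, Complex.exp a = Complex.exp (∑ a ∈ T, a) := fun T _ =>
    (Complex.exp_sum T fun a => a).symm
  rw [Finset.sum_congr rfl h2,
    ← Finset.sum_filter_add_sum_filter_not s.powerset (fun T => ∑ a ∈ T, a = 0)] at h1
  have h3 : ∑ T ∈ s.powerset.filter (fun T => ∑ a ∈ T, a = 0), Complex.exp (∑ a ∈ T, a) =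
      ((s.powerset.filter (fun T => ∑ a ∈ T, a = 0)).card : ℂ) := by
    rw [Finset.sum_congr rfl fun T hT => by
      rw [(Finset.mem_filter.1 hT).2, Complex.exp_zero], Finset.sum_const, nsmul_eq_mul, mul_one]
  rw [h3] at h1
  exact h1

end Pool.Agent.Helper98.DJ
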