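import Mathlib

/-!
# Project DJ (MP_274814_nt): Lindemann, L_lim
-/

set_option autoImplicit false

namespace Pool.Agent.Helper98.DJ

open Set
open scoped Nat

/-- L5. -/
theorem L_lim (A C : ℝ) : ∃ N : ℕ, ∀ p ≥ N, A * C ^ p / ((p - 1)! : ℕ) < 1 := by
  have h1 : Filter.Tendsto (fun n : ℕ => A * C * (C ^ n / (n ! : ℝ))) Filter.atTop (nhds 0) := by
    have := (FloorSemiring.tendsto_pow_div_factorial_atTop C).const_mul (A * C)
    rwa [mul_zero] at this
  obtain ⟨N, hN⟩ := Filter.eventually_atTop.1 (h1.eventually_lt_const (zero_lt_one (α := ℝ)))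
  refine ⟨N + 1, fun p hp => ?_⟩
  obtain ⟨q, rfl⟩ : ∃ q, p = q + 1 := ⟨p - 1, by omega⟩
  have h2 := hN q (by omega)
  rw [Nat.add_sub_cancel, pow_succ]
  calc A * (C ^ q * C) / ((q ! : ℕ) : ℝ) = A * C * (C ^ q / (q ! : ℝ)) := by ring
    _ < 1 := h2

end Pool.Agent.Helper98.DJ
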